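import Mathlib

set_option autoImplicit false

/-! Marcinkiewicz type interpolation between two finite exponents (the two inner integrals are
taken from the starting file `H438R2/RZ/M1`). -/

namespace Pool.Agent.H104Z.Lip

open MeasureTheory Set Filter
open scoped ENNReal NNReal

/-- the inner integral for the large part -/
theorem inner1 (q c a : ℝ) (hq : 0 < q) (hc : 0 < c) (ha : 0 ≤ a) :
    ∫⁻ s in Ioi (0 : ℝ), (if c * s < a then ENNReal.ofReal (s ^ (q - 1)) else 0) ≤
      ENNReal.ofReal ((a / c) ^ q / q) := by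
  have hac : 0 ≤ a / c := div_nonneg ha hc.le
  have h1 : ∫⁻ s in Ioi (0 : ℝ), (if c * s < a then ENNReal.ofReal (s ^ (q - 1)) else 0) ≤
      ∫⁻ s in Ioc (0 : ℝ) (a / c), ENNReal.ofReal (s ^ (q - 1)) := by
    rw [← lintegral_indicator measurableSet_Ioi, ← lintegral_indicator measurableSet_Ioc]
    refine lintegral_mono fun s => ?_
    by_cases hs : 0 < s
    · rw [indicator_of_mem (show s ∈ Ioi (0 : ℝ) from hs)]
      by_cases h : c * s < a
      · rw [if_pos h, indicator_of_mem]
        exact ⟨hs, (le_div_iff₀ hc).2 (by rw [mul_comm]; exact h.le)⟩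
      · rw [if_neg h]; exact zero_le
    · rw [indicator_of_notMem (show s ∉ Ioi (0 : ℝ) from hs)]; exact zero_le
  refine h1.trans ?_
  have hint : IntegrableOn (fun s : ℝ => s ^ (q - 1)) (Ioc 0 (a / c)) := by
    have := intervalIntegral.intervalIntegrable_rpow' (a := 0) (b := a / c) (r := q - 1)
      (by linarith)
    rwa [intervalIntegrable_iff_integrableOn_Ioc_of_le hac] at this
  rw [← ofReal_integral_eq_lintegral_ofReal hint]
  · rw [← intervalIntegral.integral_of_le hac, integral_rpow (Or.inl (by linarith))]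
    rw [show q - 1 + 1 = q by ring, Real.zero_rpow hq.ne', sub_zero]
  · rw [Filter.EventuallyLE, ae_restrict_iff' measurableSet_Ioc]
    exact Filter.Eventually.of_forall fun s hs => Real.rpow_nonneg hs.1.le _

/-- the inner integral for the small part -/
theorem inner2 (q c a : ℝ) (hq : 0 < q) (hc : 0 < c) (ha : 0 < a) :
    ∫⁻ s in Ioi (0 : ℝ), (if a ≤ c * s then ENNReal.ofReal (s ^ (-q - 1)) else 0) ≤
      ENNReal.ofReal ((a / c) ^ (-q) / q) := by
  have hac : 0 < a / c := div_pos ha hc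
  have h1 : ∫⁻ s in Ioi (0 : ℝ), (if a ≤ c * s then ENNReal.ofReal (s ^ (-q - 1)) else 0) ≤
      ∫⁻ s in Ici (a / c), ENNReal.ofReal (s ^ (-q - 1)) := by
    rw [← lintegral_indicator measurableSet_Ioi, ← lintegral_indicator measurableSet_Ici]
    refine lintegral_mono fun s => ?_
    by_cases hs : 0 < s
    · rw [indicator_of_mem (show s ∈ Ioi (0 : ℝ) from hs)]
      by_cases h : a ≤ c * s
      · rw [if_pos h, indicator_of_mem]
        exact (div_le_iff₀ hc).2 (by rw [mul_comm]; exact h)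
      · rw [if_neg h]; exact zero_le
    · rw [indicator_of_notMem (show s ∉ Ioi (0 : ℝ) from hs)]; exact zero_le
  refine h1.trans ?_
  rw [setLIntegral_congr Ioi_ae_eq_Ici.symm]
  have hint : IntegrableOn (fun s : ℝ => s ^ (-q - 1)) (Ioi (a / c)) :=
    integrableOn_Ioi_rpow_of_lt (by linarith) hac
  rw [← ofReal_integral_eq_lintegral_ofReal hint]
  · rw [integral_Ioi_rpow_of_lt (by linarith) hac]
    rw [show -q - 1 + 1 = -q by ring, neg_div_neg_eq]
  · rw [Filter.EventuallyLE, ae_restrict_iff' measurableSet_Ioi]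
    exact Filter.Eventually.of_forall fun s hs => Real.rpow_nonneg (hac.le.trans (le_of_lt hs)) _

/-- Chebyshev -/
theorem cheb {Y : Type} [MeasurableSpace Y] (ν : Measure Y) (u : Y → ℝ≥0∞) (hu : Measurable u)
    (r : ℝ) (hr : 0 < r) (s : ℝ) (hs : 0 < s) :
    ν {y | ENNReal.ofReal (s / 2) ≤ u y} ≤
      ENNReal.ofReal ((2 : ℝ) ^ r * s ^ (-r)) * ∫⁻ y, u y ^ r ∂ν := by
  have h1 : {y | ENNReal.ofReal (s / 2) ≤ u y} ⊆ {y | ENNReal.ofReal ((s / 2) ^ r) ≤ u y ^ r} := by
    intro y hy
    change ENNReal.ofReal (s / 2) ≤ u y at hy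
    change ENNReal.ofReal ((s / 2) ^ r) ≤ u y ^ r
    rw [← ENNReal.ofReal_rpow_of_nonneg (by positivity) hr.le]
    exact ENNReal.rpow_le_rpow hy hr.le
  have h2 : (0 : ℝ) < (s / 2) ^ r := by positivity
  refine (measure_mono h1).trans ?_
  refine (meas_ge_le_lintegral_div (hu.pow_const r).aemeasurable
    (ENNReal.ofReal_pos.2 h2).ne' ENNReal.ofReal_ne_top).trans ?_
  rw [ENNReal.div_eq_inv_mul, ← ENNReal.ofReal_inv_of_pos h2]
  refine mul_le_mul_left ?_ _
  apply le_of_eq
  congr 1
  rw [Real.rpow_neg hs.le, Real.div_rpow hs.le (by norm_num), inv_div, div_eq_mul_inv]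

theorem large (q r : ℝ) (hq : 0 < q) (hr : 0 < r) {X : Type} [MeasurableSpace X] (μ : Measure X)
    [SFinite μ] (f : X → ℝ) (hf : Measurable f) (hf0 : ∀ x, 0 ≤ f x) :
    ∫⁻ s in Ioi (0 : ℝ), ENNReal.ofReal (s ^ (q - 1)) *
        ∫⁻ x in {x | s < f x}, ENNReal.ofReal (f x) ^ r ∂μ ≤
      ENNReal.ofReal (1 / q) * ∫⁻ x, ENNReal.ofReal (f x) ^ (q + r) ∂μ := by
  have hms : MeasurableSet {z : ℝ × X | z.1 < f z.2} :=
    measurableSet_lt measurable_fst (hf.comp measurable_snd)
  have hm1 : Measurable fun z : ℝ × X =>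
      (if z.1 < f z.2 then ENNReal.ofReal (z.1 ^ (q - 1)) else 0) * ENNReal.ofReal (f z.2) ^ r :=
    (Measurable.ite hms ((measurable_fst.pow_const (q - 1)).ennreal_ofReal) measurable_const).mul
      (((hf.comp measurable_snd).ennreal_ofReal).pow_const r)
  calc ∫⁻ s in Ioi (0 : ℝ), ENNReal.ofReal (s ^ (q - 1)) *
        ∫⁻ x in {x | s < f x}, ENNReal.ofReal (f x) ^ r ∂μ
      = ∫⁻ s in Ioi (0 : ℝ), ∫⁻ x, (if s < f x then ENNReal.ofReal (s ^ (q - 1)) else 0) *
          ENNReal.ofReal (f x) ^ r ∂μ := by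
        refine lintegral_congr fun s => ?_
        have hs : MeasurableSet {x | s < f x} := measurableSet_lt measurable_const hf
        rw [← lintegral_indicator hs, ← lintegral_const_mul _
          (((hf.ennreal_ofReal).pow_const r).indicator hs)]
        refine lintegral_congr fun x => ?_
        by_cases h : s < f x
        · rw [if_pos h, indicator_of_mem (show x ∈ {x | s < f x} from h)]
        · rw [if_neg h, indicator_of_notMem (show x ∉ {x | s < f x} from h)]; simp
    _ = ∫⁻ x, (∫⁻ s in Ioi (0 : ℝ), (if s < f x then ENNReal.ofReal (s ^ (q - 1)) else 0) *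
          ENNReal.ofReal (f x) ^ r) ∂μ := lintegral_lintegral_swap hm1.aemeasurable
    _ ≤ ∫⁻ x, ENNReal.ofReal (1 / q) * ENNReal.ofReal (f x) ^ (q + r) ∂μ := by
        refine lintegral_mono fun x => ?_
        have hmx : Measurable fun s : ℝ =>
            (if s < f x then ENNReal.ofReal (s ^ (q - 1)) else 0) :=
          Measurable.ite (measurableSet_lt measurable_id measurable_const)
            ((measurable_id.pow_const (q - 1)).ennreal_ofReal) measurable_const
        rw [lintegral_mul_const _ hmx]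
        have h1 := inner1 q 1 (f x) hq one_pos (hf0 x)
        simp only [one_mul, div_one] at h1
        refine (mul_le_mul_left h1 _).trans ?_
        apply le_of_eq
        rw [ENNReal.ofReal_rpow_of_nonneg (hf0 x) hr.le,
          ENNReal.ofReal_rpow_of_nonneg (hf0 x) (by linarith),
          ← ENNReal.ofReal_mul (by have := hf0 x; positivity), ← ENNReal.ofReal_mul (by positivity)]
        congr 1
        rw [Real.rpow_add' (hf0 x) (by linarith)]
        field_simp
    _ = _ := lintegral_const_mul _ ((hf.ennreal_ofReal).pow_const (q + r))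

theorem small (q r : ℝ) (hq : 0 < q) (hqr : q < r) {X : Type} [MeasurableSpace X]
    (μ : Measure X) [SFinite μ] (f : X → ℝ) (hf : Measurable f) (hf0 : ∀ x, 0 ≤ f x) :
    ∫⁻ s in Ioi (0 : ℝ), ENNReal.ofReal (s ^ (-q - 1)) *
        ∫⁻ x in {x | f x ≤ s}, ENNReal.ofReal (f x) ^ r ∂μ ≤
      ENNReal.ofReal (1 / q) * ∫⁻ x, ENNReal.ofReal (f x) ^ (r - q) ∂μ := by
  have hr : 0 < r := by linarith
  have hms : MeasurableSet {z : ℝ × X | f z.2 ≤ z.1} :=
    measurableSet_le (hf.comp measurable_snd) measurable_fst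
  have hm1 : Measurable fun z : ℝ × X =>
      (if f z.2 ≤ z.1 then ENNReal.ofReal (z.1 ^ (-q - 1)) else 0) *
        ENNReal.ofReal (f z.2) ^ r :=
    (Measurable.ite hms ((measurable_fst.pow_const (-q - 1)).ennreal_ofReal) measurable_const).mul
      (((hf.comp measurable_snd).ennreal_ofReal).pow_const r)
  calc ∫⁻ s in Ioi (0 : ℝ), ENNReal.ofReal (s ^ (-q - 1)) *
        ∫⁻ x in {x | f x ≤ s}, ENNReal.ofReal (f x) ^ r ∂μ
      = ∫⁻ s in Ioi (0 : ℝ), ∫⁻ x, (if f x ≤ s then ENNReal.ofReal (s ^ (-q - 1)) else 0) *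
          ENNReal.ofReal (f x) ^ r ∂μ := by
        refine lintegral_congr fun s => ?_
        have hs : MeasurableSet {x | f x ≤ s} := measurableSet_le hf measurable_const
        rw [← lintegral_indicator hs, ← lintegral_const_mul _
          (((hf.ennreal_ofReal).pow_const r).indicator hs)]
        refine lintegral_congr fun x => ?_
        by_cases h : f x ≤ s
        · rw [if_pos h, indicator_of_mem (show x ∈ {x | f x ≤ s} from h)]
        · rw [if_neg h, indicator_of_notMem (show x ∉ {x | f x ≤ s} from h)]; simp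
    _ = ∫⁻ x, (∫⁻ s in Ioi (0 : ℝ), (if f x ≤ s then ENNReal.ofReal (s ^ (-q - 1)) else 0) *
          ENNReal.ofReal (f x) ^ r) ∂μ := lintegral_lintegral_swap hm1.aemeasurable
    _ ≤ ∫⁻ x, ENNReal.ofReal (1 / q) * ENNReal.ofReal (f x) ^ (r - q) ∂μ := by
        refine lintegral_mono fun x => ?_
        have hmx : Measurable fun s : ℝ =>
            (if f x ≤ s then ENNReal.ofReal (s ^ (-q - 1)) else 0) :=
          Measurable.ite (measurableSet_le measurable_const measurable_id)
            ((measurable_id.pow_const (-q - 1)).ennreal_ofReal) measurable_const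
        rw [lintegral_mul_const _ hmx]
        rcases (hf0 x).eq_or_lt with h0 | h0
        · rw [← h0]; simp [ENNReal.zero_rpow_of_pos hr]
        have h1 := inner2 q 1 (f x) hq one_pos h0
        simp only [one_mul, div_one] at h1
        refine (mul_le_mul_left h1 _).trans ?_
        apply le_of_eq
        rw [ENNReal.ofReal_rpow_of_nonneg (hf0 x) hr.le,
          ENNReal.ofReal_rpow_of_nonneg (hf0 x) (by linarith),
          ← ENNReal.ofReal_mul (by positivity), ← ENNReal.ofReal_mul (by positivity)]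
        congr 1
        rw [Real.rpow_sub h0, Real.rpow_neg h0.le]
        field_simp
    _ = _ := lintegral_const_mul _ ((hf.ennreal_ofReal).pow_const (r - q))

theorem marc (b p a : ℝ) (hb : 0 < b) (hbp : b < p) (hpa : p < a) : ∃ C : ℝ, 0 < C ∧
    ∀ {X : Type} [MeasurableSpace X] (μ : Measure X)
      [SFinite μ] (F : X → ℝ) (f : X → ℝ), Measurable F → Measurable f → (∀ y, 0 ≤ F y) →
      (∀ x, 0 ≤ f x) →
      (∀ t : ℝ, 0 < t → ∃ u v : X → ℝ≥0∞, Measurable u ∧ Measurable v ∧
        (∀ᵐ y ∂μ, ENNReal.ofReal (F y) ≤ u y + v y) ∧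
        ∫⁻ y, u y ^ b ∂μ ≤ ∫⁻ x in {x | t < f x}, ENNReal.ofReal (f x) ^ b ∂μ ∧
        ∫⁻ y, v y ^ a ∂μ ≤ ∫⁻ x in {x | f x ≤ t}, ENNReal.ofReal (f x) ^ a ∂μ) →
      ∫⁻ y, ENNReal.ofReal (F y) ^ p ∂μ ≤
        ENNReal.ofReal C * ∫⁻ x, ENNReal.ofReal (f x) ^ p ∂μ := by
  have hp2 : 0 < p - b := by linarith
  have h4p : 0 < a - p := by linarith
  have hp0 : 0 < p := by linarith
  have ha0 : 0 < a := by linarith
  refine ⟨p * ((2 : ℝ) ^ b * (1 / (p - b)) + (2 : ℝ) ^ a * (1 / (a - p))), by positivity, ?_⟩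
  intro X _ μ _ F f hF hf hF0 hf0 H
  have h1 : ∫⁻ y, ENNReal.ofReal (F y) ^ p ∂μ = ENNReal.ofReal p *
      ∫⁻ s in Ioi (0 : ℝ), μ {y | s < F y} * ENNReal.ofReal (s ^ (p - 1)) := by
    rw [← lintegral_rpow_eq_lintegral_meas_lt_mul μ (Eventually.of_forall hF0) hF.aemeasurable hp0]
    refine lintegral_congr fun y => ?_
    rw [ENNReal.ofReal_rpow_of_nonneg (hF0 y) hp0.le]
  have h2 : ∀ s : ℝ, 0 < s → μ {y | s < F y} * ENNReal.ofReal (s ^ (p - 1)) ≤
      ENNReal.ofReal ((2 : ℝ) ^ b) * (ENNReal.ofReal (s ^ ((p - b) - 1)) *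
        ∫⁻ x in {x | s < f x}, ENNReal.ofReal (f x) ^ b ∂μ) +
      ENNReal.ofReal ((2 : ℝ) ^ a) * (ENNReal.ofReal (s ^ (-(a - p) - 1)) *
        ∫⁻ x in {x | f x ≤ s}, ENNReal.ofReal (f x) ^ a ∂μ) := by
    intro s hs
    obtain ⟨u, v, hu, hv, huv, hu2, hv4⟩ := H s hs
    have h3 : μ {y | s < F y} ≤ μ {y | ENNReal.ofReal (s / 2) ≤ u y} +
        μ {y | ENNReal.ofReal (s / 2) ≤ v y} := by
      refine (measure_mono_ae ?_).trans (measure_union_le _ _)
      filter_upwards [huv] with y hy hsy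
      change s < F y at hsy
      by_contra hcon
      change ¬ (ENNReal.ofReal (s / 2) ≤ u y ∨ ENNReal.ofReal (s / 2) ≤ v y) at hcon
      rw [not_or] at hcon
      obtain ⟨h4, h5⟩ := hcon
      rw [not_le] at h4 h5
      have h6 : ENNReal.ofReal (F y) < ENNReal.ofReal s := by
        refine hy.trans_lt ((ENNReal.add_lt_add h4 h5).trans_le ?_)
        rw [← ENNReal.ofReal_add (by positivity) (by positivity), add_halves]
      exact absurd (ENNReal.ofReal_le_ofReal hsy.le) (not_le.2 h6)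
    have h4 := cheb μ u hu b hb s hs
    have h5 := cheb μ v hv a ha0 s hs
    have h6 : μ {y | s < F y} ≤
        ENNReal.ofReal ((2 : ℝ) ^ b * s ^ (-b)) *
          (∫⁻ x in {x | s < f x}, ENNReal.ofReal (f x) ^ b ∂μ) +
        ENNReal.ofReal ((2 : ℝ) ^ a * s ^ (-a)) *
          (∫⁻ x in {x | f x ≤ s}, ENNReal.ofReal (f x) ^ a ∂μ) :=
      h3.trans (add_le_add (h4.trans (by gcongr)) (h5.trans (by gcongr)))
    refine (mul_le_mul_left h6 _).trans ?_
    rw [add_mul]
    apply le_of_eq
    congr 1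
    · rw [← mul_assoc, mul_right_comm]
      congr 1
      rw [← ENNReal.ofReal_mul (by positivity), ← ENNReal.ofReal_mul (by positivity)]
      congr 1
      rw [show (p - b) - 1 = -b + (p - 1) by ring, Real.rpow_add hs]
      ring
    · rw [← mul_assoc, mul_right_comm]
      congr 1
      rw [← ENNReal.ofReal_mul (by positivity), ← ENNReal.ofReal_mul (by positivity)]
      congr 1
      rw [show -(a - p) - 1 = -a + (p - 1) by ring, Real.rpow_add hs]
      ring
  have hl := large (p - b) b hp2 hb μ f hf hf0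
  have hsm := small (a - p) a h4p (by linarith) μ f hf hf0
  rw [show p - b + b = p by ring] at hl
  rw [show a - (a - p) = p by ring] at hsm
  set J := ∫⁻ x, ENNReal.ofReal (f x) ^ p ∂μ with hJ
  have hms : MeasurableSet {z : ℝ × X | z.1 < f z.2} :=
    measurableSet_lt measurable_fst (hf.comp measurable_snd)
  have hm1 : Measurable fun s : ℝ => ENNReal.ofReal ((2 : ℝ) ^ b) *
      (ENNReal.ofReal (s ^ ((p - b) - 1)) *
        ∫⁻ x in {x | s < f x}, ENNReal.ofReal (f x) ^ b ∂μ) := by
    refine Measurable.const_mul ?_ _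
    refine Measurable.mul ((measurable_id.pow_const _).ennreal_ofReal) ?_
    have h7 : (fun s : ℝ => ∫⁻ x in {x | s < f x}, ENNReal.ofReal (f x) ^ b ∂μ) =
        fun s : ℝ => ∫⁻ x, {z : ℝ × X | z.1 < f z.2}.indicator
          (fun z => ENNReal.ofReal (f z.2) ^ b) (s, x) ∂μ := by
      funext s
      have hs : MeasurableSet {x | s < f x} := measurableSet_lt measurable_const hf
      rw [← lintegral_indicator hs]
      rfl
    rw [h7]
    exact Measurable.lintegral_prod_right'
      ((((hf.comp measurable_snd).ennreal_ofReal).pow_const b).indicator hms)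
  rw [h1]
  calc ENNReal.ofReal p * ∫⁻ s in Ioi (0 : ℝ), μ {y | s < F y} * ENNReal.ofReal (s ^ (p - 1))
      ≤ ENNReal.ofReal p * ∫⁻ s in Ioi (0 : ℝ), (ENNReal.ofReal ((2 : ℝ) ^ b) *
        (ENNReal.ofReal (s ^ ((p - b) - 1)) *
        ∫⁻ x in {x | s < f x}, ENNReal.ofReal (f x) ^ b ∂μ) +
      ENNReal.ofReal ((2 : ℝ) ^ a) * (ENNReal.ofReal (s ^ (-(a - p) - 1)) *
        ∫⁻ x in {x | f x ≤ s}, ENNReal.ofReal (f x) ^ a ∂μ)) := by
        refine mul_le_mul_right ?_ _
        exact setLIntegral_mono' measurableSet_Ioi fun s hs => h2 s hs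
    _ ≤ ENNReal.ofReal p * (ENNReal.ofReal ((2 : ℝ) ^ b) * (ENNReal.ofReal (1 / (p - b)) * J)
        + ENNReal.ofReal ((2 : ℝ) ^ a) * (ENNReal.ofReal (1 / (a - p)) * J)) := by
        refine mul_le_mul_right ?_ _
        rw [lintegral_add_left hm1, lintegral_const_mul' _ _ ENNReal.ofReal_ne_top,
          lintegral_const_mul' _ _ ENNReal.ofReal_ne_top]
        gcongr
    _ = _ := by
        rw [← mul_assoc, ← mul_assoc, ← add_mul, ← mul_assoc,
          ← ENNReal.ofReal_mul (by positivity), ← ENNReal.ofReal_mul (by positivity),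
          ← ENNReal.ofReal_add (by positivity) (by positivity), ← ENNReal.ofReal_mul hp0.le]

end Pool.Agent.H104Z.Lip
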