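import Mathlib
import Pool.Agent.H104Z.Lip.Marc

set_option autoImplicit false

namespace Pool.Agent.H104Z.Lip

open MeasureTheory Set Filter
open scoped ENNReal NNReal

variable {X : Type} [MeasurableSpace X] {μ : Measure X}

theorem pow_eq {p : ℝ≥0∞} (h0 : p ≠ 0) (h1 : p ≠ ∞) (f : X → ℂ) :
    eLpNorm f p μ ^ p.toReal = ∫⁻ x, ‖f x‖ₑ ^ p.toReal ∂μ := by
  have hp : 0 < p.toReal := ENNReal.toReal_pos h0 h1
  rw [eLpNorm_eq_lintegral_rpow_enorm_toReal h0 h1, ← ENNReal.rpow_mul, one_div_mul_cancel hp.ne',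
    ENNReal.rpow_one]

/-- from a norm inequality against an indicator to an inequality of integrals -/
theorem int_le {p : ℝ≥0∞} (h0 : p ≠ 0) (h1 : p ≠ ∞) (M : ℝ≥0) (g k h : X → ℂ) (S : Set X)
    (hS : MeasurableSet S) (hk : k =ᵐ[μ] S.indicator h)
    (hle : eLpNorm g p μ ≤ M * eLpNorm k p μ) :
    ∫⁻ x, ‖g x‖ₑ ^ p.toReal ∂μ ≤
      ∫⁻ x in S, ENNReal.ofReal ((M : ℝ) * ‖h x‖) ^ p.toReal ∂μ := by
  have hp : 0 < p.toReal := ENNReal.toReal_pos h0 h1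
  rw [← pow_eq h0 h1]
  refine (ENNReal.rpow_le_rpow hle hp.le).trans (le_of_eq ?_)
  rw [ENNReal.mul_rpow_of_nonneg _ _ hp.le, eLpNorm_congr_ae hk, pow_eq h0 h1,
    ← lintegral_const_mul' _ _ (ENNReal.rpow_ne_top_of_nonneg hp.le ENNReal.coe_ne_top),
    ← lintegral_indicator hS]
  refine lintegral_congr fun x => ?_
  by_cases hx : x ∈ S
  · rw [indicator_of_mem hx, indicator_of_mem hx, ← ENNReal.mul_rpow_of_nonneg _ _ hp.le,
      ENNReal.ofReal_mul M.coe_nonneg, ofReal_norm, ENNReal.ofReal_coe_nnreal]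
  · rw [indicator_of_notMem hx, indicator_of_notMem hx]
    simp [ENNReal.zero_rpow_of_pos hp]

theorem half (β γ α : ℝ≥0∞) (h1 : 1 ≤ β) (h2 : β < γ) (h3 : γ < α) (h4 : α < ∞) :
    ∃ C : ℝ≥0, 0 < C ∧ ∀ {X : Type} [MeasurableSpace X] (μ : Measure X) [IsFiniteMeasure μ]
      (U : Lp ℂ β μ → Lp ℂ β μ) (M : ℝ≥0), 0 < M →
      (∀ x y : Lp ℂ β μ, eLpNorm (⇑(U x) - ⇑(U y)) β μ ≤ M * eLpNorm (⇑x - ⇑y) β μ) →
      (∀ x y : Lp ℂ β μ, MemLp x α μ → MemLp y α μ →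
        eLpNorm (⇑(U x) - ⇑(U y)) α μ ≤ M * eLpNorm (⇑x - ⇑y) α μ) →
      ∀ x y : Lp ℂ β μ, MemLp y α μ →
        eLpNorm (⇑(U x) - ⇑(U y)) γ μ ≤ C * M * eLpNorm (⇑x - ⇑y) γ μ := by
  have hβ0 : β ≠ 0 := (lt_of_lt_of_le one_pos h1).ne'
  have hγ0 : γ ≠ 0 := (lt_of_le_of_lt (zero_le) h2).ne'
  have hα0 : α ≠ 0 := (lt_of_le_of_lt (zero_le) h3).ne'
  have hγt : γ ≠ ∞ := (h3.trans h4).ne
  have hβt : β ≠ ∞ := (h2.trans (h3.trans h4)).ne
  have hαt : α ≠ ∞ := h4.ne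
  have hp : 0 < γ.toReal := ENNReal.toReal_pos hγ0 hγt
  obtain ⟨K, hK, hm⟩ := marc β.toReal γ.toReal α.toReal (ENNReal.toReal_pos hβ0 hβt)
    ((ENNReal.toReal_lt_toReal hβt hγt).2 h2) ((ENNReal.toReal_lt_toReal hγt hαt).2 h3)
  refine ⟨(K ^ (1 / γ.toReal)).toNNReal, Real.toNNReal_pos.2 (Real.rpow_pos_of_pos hK _), ?_⟩
  intro X _ μ _ U M hM hUβ hUα x y hy
  have hmeas : ∀ z : Lp ℂ β μ, Measurable (z : X → ℂ) :=
    fun z => (Lp.stronglyMeasurable z).measurable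
  set h : X → ℂ := ⇑x - ⇑y with hh
  have hhm : Measurable h := (hmeas x).sub (hmeas y)
  have hfm : Measurable fun ω => (M : ℝ) * ‖h ω‖ := hhm.norm.const_mul _
  have key := hm μ (fun ω => ‖(⇑(U x) - ⇑(U y)) ω‖) (fun ω => (M : ℝ) * ‖h ω‖)
    ((hmeas _).sub (hmeas _)).norm hfm (fun _ => norm_nonneg _) (fun _ => by positivity) (by
      intro t ht
      set S : Set X := {ω | (M : ℝ) * ‖h ω‖ ≤ t} with hS
      have hSm : MeasurableSet S := measurableSet_le hfm measurable_const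
      have hb : ∀ q : ℝ≥0∞, MemLp (S.indicator h) q μ := by
        intro q
        refine MemLp.of_bound (hhm.indicator hSm).aestronglyMeasurable (t / M) ?_
        refine Eventually.of_forall fun ω => ?_
        have hM' : (0 : ℝ) < M := hM
        by_cases hω : ω ∈ S
        · rw [indicator_of_mem hω, le_div_iff₀ hM', mul_comm]
          exact hω
        · rw [indicator_of_notMem hω, norm_zero]
          positivity
      have hzβ : MemLp (⇑y + S.indicator h) β μ := (Lp.memLp y).add (hb β)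
      set z : Lp ℂ β μ := hzβ.toLp _ with hz
      have hz1 : (z : X → ℂ) =ᵐ[μ] ⇑y + S.indicator h := hzβ.coeFn_toLp
      have hzα : MemLp z α μ := (memLp_congr_ae hz1).2 (hy.add (hb α))
      refine ⟨fun ω => ‖(⇑(U x) - ⇑(U z)) ω‖ₑ, fun ω => ‖(⇑(U z) - ⇑(U y)) ω‖ₑ,
        ((hmeas _).sub (hmeas _)).enorm, ((hmeas _).sub (hmeas _)).enorm, ?_, ?_, ?_⟩
      · refine Eventually.of_forall fun ω => ?_
        rw [ofReal_norm]
        refine le_trans (le_of_eq ?_) (enorm_add_le _ _)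
        congr 1
        simp
      · have hS' : {ω | t < (M : ℝ) * ‖h ω‖} = Sᶜ := by
          ext ω
          simp [hS]
        rw [hS']
        refine int_le hβ0 hβt M _ (⇑x - ⇑z) h Sᶜ hSm.compl ?_ (hUβ x z)
        filter_upwards [hz1] with ω hω
        rw [Pi.sub_apply, hω]
        by_cases hωS : ω ∈ S
        · rw [indicator_of_notMem (notMem_compl_iff.2 hωS), Pi.add_apply, indicator_of_mem hωS]
          simp [hh]
        · rw [indicator_of_mem (mem_compl hωS), Pi.add_apply, indicator_of_notMem hωS]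
          simp [hh]
      · refine int_le hα0 hαt M _ (⇑z - ⇑y) h S hSm ?_ (hUα z y hzα hy)
        filter_upwards [hz1] with ω hω
        rw [Pi.sub_apply, hω]
        simp)
  simp only [ofReal_norm] at key
  have e1 : ∫⁻ ω, ENNReal.ofReal ((M : ℝ) * ‖h ω‖) ^ γ.toReal ∂μ =
      ((M : ℝ≥0∞) * eLpNorm h γ μ) ^ γ.toReal := by
    rw [ENNReal.mul_rpow_of_nonneg _ _ hp.le, pow_eq hγ0 hγt,
      ← lintegral_const_mul' _ _ (ENNReal.rpow_ne_top_of_nonneg hp.le ENNReal.coe_ne_top)]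
    refine lintegral_congr fun ω => ?_
    rw [← ENNReal.mul_rpow_of_nonneg _ _ hp.le,
      ENNReal.ofReal_mul M.coe_nonneg, ofReal_norm, ENNReal.ofReal_coe_nnreal]
  rw [e1, ← pow_eq hγ0 hγt] at key
  have e2 : ENNReal.ofReal K = (((K ^ (1 / γ.toReal)).toNNReal : ℝ≥0) : ℝ≥0∞) ^ γ.toReal := by
    change _ = ENNReal.ofReal (K ^ (1 / γ.toReal)) ^ γ.toReal
    rw [ENNReal.ofReal_rpow_of_nonneg (by positivity) hp.le, ← Real.rpow_mul hK.le,
      one_div_mul_cancel hp.ne', Real.rpow_one]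
  rw [e2, ← ENNReal.mul_rpow_of_nonneg _ _ hp.le, ENNReal.rpow_le_rpow_iff hp, ← mul_assoc] at key
  exact key

theorem main (β γ α : ℝ≥0∞) (h1 : 1 ≤ β) (h2 : β < γ) (h3 : γ < α) (h4 : α < ∞) :
    ∃ C : ℝ≥0, 0 < C ∧ ∀ {X : Type} [MeasurableSpace X] (μ : Measure X) [IsFiniteMeasure μ]
      (U : Lp ℂ β μ → Lp ℂ β μ) (M : ℝ≥0),
      (∀ x : Lp ℂ β μ, MemLp x α μ → MemLp (U x) α μ) →
      (∀ x y : Lp ℂ β μ, eLpNorm (⇑(U x) - ⇑(U y)) β μ ≤ M * eLpNorm (⇑x - ⇑y) β μ) →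
      (∀ x y : Lp ℂ β μ, MemLp x α μ → MemLp y α μ →
        eLpNorm (⇑(U x) - ⇑(U y)) α μ ≤ M * eLpNorm (⇑x - ⇑y) α μ) →
      (∀ x : Lp ℂ β μ, MemLp x γ μ → MemLp (U x) γ μ) ∧
      ∀ x y : Lp ℂ β μ, MemLp x γ μ → MemLp y γ μ →
        eLpNorm (⇑(U x) - ⇑(U y)) γ μ ≤ C * M * eLpNorm (⇑x - ⇑y) γ μ := by
  obtain ⟨C, hC, hhalf⟩ := half β γ α h1 h2 h3 h4
  have hβ0 : β ≠ 0 := (lt_of_lt_of_le one_pos h1).ne'
  have hγt : γ ≠ ∞ := (h3.trans h4).ne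
  have hγ1 : 1 ≤ γ := h1.trans h2.le
  refine ⟨3 * C, by positivity, ?_⟩
  intro X _ μ _ U M hU hUβ hUα
  have hsm : ∀ z : Lp ℂ β μ, AEStronglyMeasurable (z : X → ℂ) μ :=
    fun z => Lp.aestronglyMeasurable z
  have hH : ∀ x y : Lp ℂ β μ, MemLp y α μ →
      eLpNorm (⇑(U x) - ⇑(U y)) γ μ ≤ C * M * eLpNorm (⇑x - ⇑y) γ μ := by
    rcases eq_zero_or_pos M with hM | hM
    · intro x y _
      have h5 := hUβ x y
      rw [hM, ENNReal.coe_zero, zero_mul, nonpos_iff_eq_zero,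
        eLpNorm_eq_zero_iff ((hsm _).sub (hsm _)) hβ0] at h5
      rw [eLpNorm_congr_ae h5]
      simp
    · exact hhalf μ U M hM hUβ hUα
  refine ⟨fun x hx => ?_, fun x y hx hy => ?_⟩
  · have h0 : MemLp (0 : Lp ℂ β μ) α μ := (memLp_congr_ae (Lp.coeFn_zero ℂ β μ)).2 MemLp.zero
    have h5 : MemLp (⇑(U x) - ⇑(U 0)) γ μ := by
      refine ⟨(hsm _).sub (hsm _), lt_of_le_of_lt (hH x 0 h0) ?_⟩
      exact ENNReal.mul_lt_top (ENNReal.mul_lt_top ENNReal.coe_lt_top ENNReal.coe_lt_top)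
        (hx.sub (h0.mono_exponent h3.le)).2
    have h6 := h5.add ((hU 0 h0).mono_exponent h3.le)
    rwa [sub_add_cancel] at h6
  · by_cases hε : eLpNorm (⇑x - ⇑y) γ μ = 0
    · have h5 : x = y := by
        rw [eLpNorm_eq_zero_iff ((hsm _).sub (hsm _)) (lt_of_lt_of_le one_pos hγ1).ne'] at hε
        apply Lp.ext
        filter_upwards [hε] with ω hω
        exact sub_eq_zero.1 hω
      rw [h5]
      simp
    · obtain ⟨g, hg, -⟩ := hy.exists_simpleFunc_eLpNorm_sub_lt hγt hε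
      have hgβ : MemLp g β μ := g.memLp_of_isFiniteMeasure β μ
      set w : Lp ℂ β μ := hgβ.toLp _ with hw
      have hw1 : (w : X → ℂ) =ᵐ[μ] g := hgβ.coeFn_toLp
      have hwα : MemLp w α μ := (memLp_congr_ae hw1).2 (g.memLp_of_isFiniteMeasure α μ)
      have h5 : eLpNorm (⇑y - ⇑w) γ μ ≤ eLpNorm (⇑x - ⇑y) γ μ := by
        refine le_trans (le_of_eq (eLpNorm_congr_ae ?_)) hg.le
        filter_upwards [hw1] with ω hω
        rw [Pi.sub_apply, Pi.sub_apply, hω]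
      have h6 : eLpNorm (⇑x - ⇑w) γ μ ≤ eLpNorm (⇑x - ⇑y) γ μ + eLpNorm (⇑x - ⇑y) γ μ := by
        have := eLpNorm_add_le ((hsm x).sub (hsm y)) ((hsm y).sub (hsm w)) hγ1
        rw [sub_add_sub_cancel] at this
        exact this.trans (add_le_add le_rfl h5)
      have h7 := eLpNorm_add_le ((hsm (U x)).sub (hsm (U w))) ((hsm (U w)).sub (hsm (U y))) hγ1
      rw [sub_add_sub_cancel, eLpNorm_sub_comm (⇑(U w))] at h7
      refine h7.trans ((add_le_add ((hH x w hwα).trans (mul_le_mul_right h6 _))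
        ((hH y w hwα).trans (mul_le_mul_right h5 _))).trans (le_of_eq ?_))
      push_cast
      ring

end Pool.Agent.H104Z.Lip
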